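import Pool.Agent.TH107.AT.Cb4
import Pool.Agent.TH107.RF.Conv

set_option autoImplicit false

namespace Pool.Agent.Results.MP_54e5d7_al.ArtinConstantLabel

/-- The Artin group of a finite Coxeter matrix; an entry `0` stands for the label infinity, that is,
for no relation. -/
abbrev ArtinGroup {n : ℕ} (M : CoxeterMatrix (Fin n)) : Type :=
  PresentedGroup
    {r : FreeGroup (Fin n) | ∃ i j : Fin n, M.M i j ≠ 0 ∧
      r = ((List.range (M.M i j)).map
              (fun k => if Even k then FreeGroup.of i else FreeGroup.of j)).prod *
          (((List.range (M.M i j)).map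
              (fun k => if Even k then FreeGroup.of j else FreeGroup.of i)).prod)⁻¹}

/-- The orders of the finite subgroups of `G` are bounded, and `d` is their least common
multiple. -/
def IsLcm (G : Type) [Group G] (d : ℕ) : Prop :=
  (∃ N : ℕ, ∀ H : Subgroup G, Finite H → Nat.card H ≤ N) ∧
    (∀ H : Subgroup G, Finite H → Nat.card H ∣ d) ∧
    ∀ e : ℕ, (∀ H : Subgroup G, Finite H → Nat.card H ∣ e) → d ∣ e

/-- The kernel of right multiplication by the matrix `A` on row vectors of length `m` over
`ℓ²(G)`. -/
def kernel {G : Type} [Group G] {m n : ℕ} (A : Matrix (Fin m) (Fin n) (G →₀ ℂ)) :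
    Set (lp (fun _ : Fin m × G => ℂ) 2) :=
  {x | ∀ (j : Fin n) (g : G),
    ∑ i : Fin m, (A i j).sum (fun h c => x (i, g * h⁻¹) * c) = 0}

open Classical in
/-- The von Neumann dimension of this kernel: the sum over `i` of one minus the squared distance
from the basis vector at `(i, 1)` to the kernel, that is, the trace of the projection onto the
kernel. -/
noncomputable def kerDim {G : Type} [Group G] {m n : ℕ} (A : Matrix (Fin m) (Fin n) (G →₀ ℂ)) :
    ℝ :=
  ∑ i : Fin m, (1 - (Metric.infDist
    (lp.single 2 (i, (1 : G)) (1 : ℂ) : lp (fun _ : Fin m × G => ℂ) 2) (kernel A)) ^ 2)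

/-- Let `M` be a Coxeter matrix such that no three distinct generators `i, j, k` have `m_ij` and
`m_jk` finite and at least three and `m_ik` finite, let `m` be at least three and suppose that the
generators fall into classes (the values of `κ`) such that two generators of the same class have
label `m` or infinity and two generators of different classes have label two or infinity.

1. The Artin group is torsion-free, and for every group `G` with an injective homomorphism to
   it and every matrix over the complex group ring of `G` the von Neumann dimension of the kernel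
   is an integer.
2. Let `G` be a group with a subgroup `H` of finite index which embeds in the Artin group.
   Then the orders of the finite subgroups of `G` are bounded, and their least common multiple `d`
   divides the index of `H`. If it equals the index, for instance if `G` is the semidirect product
   of `H` with a finite group, then `d · (n - m + dim ker A)` is an integer for every `m × n`
   matrix `A` over the complex group ring of `G`. -/
theorem result : ∀ (s : ℕ) (M : CoxeterMatrix (Fin s)),
    (∀ i j k : Fin s, i ≠ k → 3 ≤ M.M i j → 3 ≤ M.M j k → M.M i k = 0) →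
    ∀ (κ : Fin s → ℕ) (l : ℕ), 3 ≤ l →
      (∀ i j, i ≠ j → κ i = κ j → M.M i j = 0 ∨ M.M i j = l) →
      (∀ i j, κ i ≠ κ j → M.M i j = 0 ∨ M.M i j = 2) →
      (∀ (G : Type) [Group G] (f : G →* ArtinGroup M), Function.Injective f →
        (∀ g : G, ∀ k : ℕ, 0 < k → g ^ k = 1 → g = 1) ∧
        ∀ (m n : ℕ) (A : Matrix (Fin m) (Fin n) (G →₀ ℂ)), ∃ z : ℤ, kerDim A = z) ∧
      ∀ (G : Type) [Group G] (H : Subgroup G) (f : H →* ArtinGroup M), H.FiniteIndex →
        Function.Injective f →
        (∃ d : ℕ, IsLcm G d) ∧ ∀ d : ℕ, IsLcm G d →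
          d ∣ H.index ∧
          (H.index = d → ∀ (m n : ℕ) (A : Matrix (Fin m) (Fin n) (G →₀ ℂ)),
            ∃ z : ℤ, (d : ℝ) * ((n : ℝ) - (m : ℝ) + kerDim A) = z) := by
  intro s M hR κ l hl hin hout
  have key : ∀ R : Set (FreeGroup (Fin s)), R = Pool.Agent.TH107.RF.rels M →
      (∀ (G : Type) [Group G] (f : G →* PresentedGroup R), Function.Injective f →
        (∀ g : G, ∀ k : ℕ, 0 < k → g ^ k = 1 → g = 1) ∧
        ∀ (m n : ℕ) (A : Matrix (Fin m) (Fin n) (G →₀ ℂ)), ∃ z : ℤ, kerDim A = z) ∧
      ∀ (G : Type) [Group G] (H : Subgroup G) (f : H →* PresentedGroup R), H.FiniteIndex →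
        Function.Injective f →
        (∃ d : ℕ, IsLcm G d) ∧ ∀ d : ℕ, IsLcm G d →
          d ∣ H.index ∧
          (H.index = d → ∀ (m n : ℕ) (A : Matrix (Fin m) (Fin n) (G →₀ ℂ)),
            ∃ z : ℤ, (d : ℝ) * ((n : ℝ) - (m : ℝ) + kerDim A) = z) := by
    rintro R rfl
    have hCB : ∀ (G : Type) [Group G] (f : G →* Pool.Agent.TH107.RF.Art M),
        Function.Injective f → Pool.Agent.TH107.AT.CB l G := by
      intro G _ f hf
      exact ⟨Fin s, inferInstance, inferInstance, ℕ, inferInstance, M, κ, hR, hin, hout, f, hf⟩
    have htor : ∀ (G : Type) [Group G] (f : G →* Pool.Agent.TH107.RF.Art M),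
        Function.Injective f → ∀ g : G, ∀ k : ℕ, 0 < k → g ^ k = 1 → g = 1 :=
      fun G _ f hf g k hk hg => ((hCB G f hf).locGood hl).tf g k hk hg
    refine ⟨?_, ?_⟩
    · intro G _ f hf
      refine ⟨htor G f hf, fun m n A => ?_⟩
      obtain ⟨z, hz⟩ := (hCB G f hf).dim_int hl (Pool.Agent.W656.VA.cv A)
      exact ⟨z, (Pool.Agent.W656.VA.kerDim_eq A).trans hz⟩
    · intro G _ H f hH hf
      have hfin : Finite (G ⧸ H) := Subgroup.finite_quotient_of_finiteIndex
      have htf := htor H f hf
      -- finite subgroups act freely on the cosets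
      have hdiv : ∀ K : Subgroup G, Finite K → Nat.card K ∣ H.index := by
        intro K hK
        have hst : ∀ b : G ⧸ H, MulAction.stabilizer K b = ⊥ := by
          intro b
          induction b using QuotientGroup.induction_on with
          | H g =>
            rw [eq_bot_iff]
            intro k hk
            rw [Subgroup.mem_bot]
            rw [MulAction.mem_stabilizer_iff] at hk
            have h1 : (QuotientGroup.mk ((k : G) * g) : G ⧸ H) = QuotientGroup.mk g := hk
            have h2 : ((k : G) * g)⁻¹ * g ∈ H := QuotientGroup.eq.1 h1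
            have h3 : g⁻¹ * (k : G)⁻¹ * g ∈ H := by simpa [mul_assoc] using h2
            have h4 := htf ⟨_, h3⟩ (Nat.card K) Nat.card_pos (by
              apply Subtype.ext
              have h5 : ((k⁻¹ : K) : G) ^ Nat.card K = 1 := by
                rw [← SubmonoidClass.coe_pow, pow_card_eq_one']
                rfl
              have h6 : (g⁻¹ * (k : G)⁻¹ * g) ^ Nat.card K = g⁻¹ * ((k : G)⁻¹) ^ Nat.card K * g := by
                have := conj_pow (i := Nat.card K) (a := g⁻¹) (b := (k : G)⁻¹)
                simpa using this
              change (g⁻¹ * (k : G)⁻¹ * g) ^ Nat.card K = 1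
              rw [h6]
              have h7 : ((k : G)⁻¹) ^ Nat.card K = 1 := h5
              rw [h7, mul_one, inv_mul_cancel])
            have h5 : g⁻¹ * (k : G)⁻¹ * g = 1 := congrArg Subtype.val h4
            apply Subtype.ext
            change (k : G) = 1
            have h6 : (k : G)⁻¹ = 1 := by
              have := congrArg (fun x => g * x * g⁻¹) h5
              simpa [mul_assoc] using this
            exact inv_eq_one.1 h6
        have h1 := Nat.card_congr (MulAction.selfEquivOrbitsQuotientProd hst)
        rw [Nat.card_prod] at h1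
        rw [Subgroup.index, h1]
        exact dvd_mul_left _ _
      have hpos : 0 < H.index := Nat.pos_of_ne_zero hH.index_ne_zero
      classical
      refine ⟨⟨((H.index.divisors).filter fun c => ∃ K : Subgroup G, Finite K ∧
        Nat.card K = c).lcm id, ⟨H.index, fun K hK => Nat.le_of_dvd hpos (hdiv K hK)⟩, ?_, ?_⟩, ?_⟩
      · intro K hK
        exact Finset.dvd_lcm (f := id) (Finset.mem_filter.2 ⟨Nat.mem_divisors.2
          ⟨hdiv K hK, hpos.ne'⟩, K, hK, rfl⟩)
      · intro e he
        apply Finset.lcm_dvd
        intro c hc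
        obtain ⟨K, hK, rfl⟩ := (Finset.mem_filter.1 hc).2
        exact he K hK
      · intro d hd
        refine ⟨hd.2.2 _ hdiv, fun hHd m n A => ?_⟩
        obtain ⟨z, hz⟩ := Pool.Agent.TH107.AT.CB.dim_fi hl H (hCB H f hf)
          (Pool.Agent.W656.VA.cv A)
        have h1 : kerDim A = _ := Pool.Agent.W656.VA.kerDim_eq A
        refine ⟨d * (n - m) + z, ?_⟩
        rw [h1, mul_add, ← hHd, hz]
        push_cast
        ring
  exact key _ (Pool.Agent.TH107.RF.rels_eq M)

end Pool.Agent.Results.MP_54e5d7_al.ArtinConstantLabel
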