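import Pool.Agent.TH57.Thr.Ati5

set_option autoImplicit false

/-! The Atiyah conjecture for groups with bounded torsion holds for all complex matrices whose
support is contained in the support of an integer matrix of operator norm less than `3 / √2`. -/

namespace Pool.Agent.Results.MP_54e5d7_al.NormBelowThreshold

open TH57.Thr TH57.Thr.Ati

theorem result (G : Type) [Group G] (d : ℕ) (hd : ∀ H : Subgroup G, Finite H → Nat.card H ∣ d)
    (m n : ℕ) (P : Matrix (Fin m) (Fin n) (MonoidAlgebra ℤ G))
    (c : ℝ) (hc0 : 0 < c) (hc : c ^ 2 < 9 / 2) (hP : NormLE P c)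
    (A : Matrix (Fin m) (Fin n) (G →₀ ℂ)) (hA : ∀ i j g, A i j g ≠ 0 → (P i j).coeff g ≠ 0) :
    ∃ z : ℤ, (d : ℝ) * kerDimC A = z :=
  kerDimC_pattern d hd P c hc0 hc hP A hA

end Pool.Agent.Results.MP_54e5d7_al.NormBelowThreshold
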