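import Pool.Agent.TH357.EN.E3

set_option autoImplicit false

universe u

noncomputable section

namespace Pool.Agent.Results.MP_54e5d7_al.RankEnergyBound

/-- The kernel of right multiplication by the matrix `A` over the complex group ring on row vectors
of length `m` over `l2(G)`: all square-summable `x` with `x A = 0`. -/
def kernel {G : Type u} [Group G] {m l : ℕ} (A : Matrix (Fin m) (Fin l) (G →₀ ℂ)) :
    Set (lp (fun _ : Fin m × G => ℂ) 2) :=
  {x | ∀ (j : Fin l) (g : G),
    ∑ k : Fin m, ∑ h ∈ (A k j).support, x (k, g * h⁻¹) * A k j h = 0}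

open Classical in
/-- The von Neumann dimension of that kernel: the sum over `i` of one minus the square of the
distance from the basis vector at `(i, 1)` to the kernel, that is, the sum of the squared lengths
of the projections of these vectors to the kernel. -/
def kerDim {G : Type u} [Group G] {m l : ℕ} (A : Matrix (Fin m) (Fin l) (G →₀ ℂ)) : ℝ :=
  ∑ i : Fin m, (1 - Metric.infDist
    (lp.single (E := fun _ : Fin m × G => ℂ) 2 (i, (1 : G)) (1 : ℂ)) (kernel A) ^ 2)

/-- Let `A` be an `m × l` matrix over the complex group ring of a group `G` and let column `j` of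
`A` be nonzero, with `n` terms in all. Suppose that every nontrivial element of finite order of `G`
has order at least `2 n - 1`; for example `G` may be any torsion-free group. Let `L` be the sum of
the absolute values of all the coefficients of the entries of column `j` divided by the largest of
these absolute values. Then the kernel of right multiplication by `A` on `l2(G)^m` has von Neumann
dimension at most `m - (3 / (2 L³ + L))^(1/3)`. -/
theorem result {G : Type u} [Group G] {m l : ℕ} (A : Matrix (Fin m) (Fin l) (G →₀ ℂ)) (j : Fin l)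
    (n : ℕ) (hn : n = ∑ k, (A k j).support.card)
    (hord : ∀ g : G, IsOfFinOrder g → g ≠ 1 → 2 * n - 1 ≤ orderOf g)
    (k₀ : Fin m) (g₀ : G) (h₀ : A k₀ j g₀ ≠ 0) (hmax : ∀ k g, ‖A k j g‖ ≤ ‖A k₀ j g₀‖)
    (L : ℝ) (hL : L = (∑ k, ∑ g ∈ (A k j).support, ‖A k j g‖) / ‖A k₀ j g₀‖) :
    kerDim A ≤ m - (3 / (2 * L ^ 3 + L)) ^ (1 / 3 : ℝ) := by
  classical
  set c : Fin m × G → ℂ := fun p => A p.1 j p.2 with hc
  set S : Finset (Fin m × G) := (Finset.univ.sigma fun k : Fin m => (A k j).support).map
    (Equiv.sigmaEquivProd (Fin m) G).toEmbedding with hS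
  have hmem : ∀ p, p ∈ S ↔ c p ≠ 0 := by
    intro p
    rw [hS, Finset.mem_map_equiv, Finset.mem_sigma]
    simp [hc]
  have hcard : S.card = n := by
    rw [hS, Finset.card_map, Finset.card_sigma, hn]
  have hsub : kernel A ⊆ H61R3AT.Kc S c := by
    intro x hx g
    have := hx j g
    rw [hS, Finset.sum_map, Finset.sum_sigma]
    exact this
  have h0 : (0 : lp (fun _ : Fin m × G => ℂ) 2) ∈ kernel A := by
    intro j g
    simp
  have hL' : L = (∑ p ∈ S, ‖c p‖) / ‖c (k₀, g₀)‖ := by
    rw [hL, hS, Finset.sum_map, Finset.sum_sigma]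
    rfl
  have hmain := TH357EN.column_energy S c (by rw [hcard]; exact hord) hmem (k₀, g₀) h₀
    (fun p => hmax p.1 p.2) L hL'
  set r := ∑ k : Fin m, Metric.infDist
    (H61R3AT.sd (k, 1) : lp (fun _ : Fin m × G => ℂ) 2) (H61R3AT.Kc S c) ^ 2 with hr
  have hr0 : 0 ≤ r := Finset.sum_nonneg fun _ _ => sq_nonneg _
  have h1 : kerDim A ≤ m - r := by
    unfold kerDim
    rw [Finset.sum_sub_distrib, Finset.sum_const, Finset.card_univ, Fintype.card_fin,
      nsmul_eq_mul, mul_one]
    apply sub_le_sub_left
    rw [hr]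
    apply Finset.sum_le_sum
    intro k _
    have h2 := Metric.infDist_le_infDist_of_subset (x := (H61R3AT.sd (k, 1) :
      lp (fun _ : Fin m × G => ℂ) 2)) hsub ⟨0, h0⟩
    have h3 := pow_le_pow_left₀ Metric.infDist_nonneg h2 2
    refine h3.trans (le_of_eq ?_)
    unfold H61R3AT.sd
    congr!
  refine h1.trans (sub_le_sub_left ?_ _)
  have hLpos : 0 < L := by
    rw [hL']
    have hp : 0 < ‖c (k₀, g₀)‖ := norm_pos_iff.2 h₀
    apply div_pos _ hp
    exact lt_of_lt_of_le hp (Finset.single_le_sum (f := fun p => ‖c p‖)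
      (fun p _ => norm_nonneg _) ((hmem _).2 h₀))
  have hden : 0 < 2 * L ^ 3 + L := by positivity
  have h2 : 3 / (2 * L ^ 3 + L) ≤ r ^ 3 := by
    rw [div_le_iff₀ hden]
    exact hmain
  have h3 : (r ^ 3) ^ (1 / 3 : ℝ) = r := by
    have h4 := Real.pow_rpow_inv_natCast hr0 (n := 3) (by norm_num)
    rw [one_div]
    exact_mod_cast h4
  rw [← h3]
  exact Real.rpow_le_rpow (by positivity) h2 (by norm_num)

end Pool.Agent.Results.MP_54e5d7_al.RankEnergyBound
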